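import Pool.Agent.Helper1.RK.StD

/-! RK MODULE STA (project RK, MP_de00bc_nt): three Legendre cubics have a parametric good triple.
The doubling formula on `y ^ 2 = x (x - p) (x - q)` gives one formula for all cases. -/

set_option autoImplicit false

namespace Pool.Agent.Helper36.RK

open Pool.Agent.Helper1.RK
open Polynomial

private theorem dbl {K : Type} [Field K] (X p q x : K) (h4 : (4 : K) ≠ 0) (hX : X ≠ 0)
    (hp : X - p ≠ 0) (hq : X - q ≠ 0)
    (hx : x = (X ^ 2 - p * q) ^ 2 / (4 * X * (X - p) * (X - q))) :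
    IsSquare (x * (x - p)) ∧ IsSquare (x * (x - q)) ∧ IsSquare ((x - p) * (x - q)) := by
  have hD : 4 * X * (X - p) * (X - q) ≠ 0 :=
    mul_ne_zero (mul_ne_zero (mul_ne_zero h4 hX) hp) hq
  have hxp : x - p = (X ^ 2 - 2 * p * X + p * q) ^ 2 / (4 * X * (X - p) * (X - q)) := by
    rw [hx, eq_div_iff hD, sub_mul, div_mul_cancel₀ _ hD]
    ring
  have hxq : x - q = (X ^ 2 - 2 * q * X + p * q) ^ 2 / (4 * X * (X - p) * (X - q)) := by
    rw [hx, eq_div_iff hD, sub_mul, div_mul_cancel₀ _ hD]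
    ring
  refine ⟨⟨(X ^ 2 - p * q) * (X ^ 2 - 2 * p * X + p * q) / (4 * X * (X - p) * (X - q)), ?_⟩,
    ⟨(X ^ 2 - p * q) * (X ^ 2 - 2 * q * X + p * q) / (4 * X * (X - p) * (X - q)), ?_⟩,
    ⟨(X ^ 2 - 2 * p * X + p * q) * (X ^ 2 - 2 * q * X + p * q) /
      (4 * X * (X - p) * (X - q)), ?_⟩⟩
  · rw [hxp, hx]
    ring
  · rw [hxq, hx]
    ring
  · rw [hxp, hxq]
    ring

private theorem X_sub_ne {k : Type} [Field k] (a : k) : (RatFunc.X : RatFunc k) - RatFunc.C a ≠ 0 := by
  have h : (RatFunc.X : RatFunc k) - RatFunc.C a =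
      algebraMap k[X] (RatFunc k) (Polynomial.X - Polynomial.C a) := by
    rw [map_sub, RatFunc.algebraMap_X, RatFunc.algebraMap_C]
  rw [h]
  exact (map_ne_zero_iff _ (RatFunc.algebraMap_injective k)).2 (Polynomial.X_sub_C_ne_zero a)

private theorem nonconst {k : Type} [Field k] (p q c : k) :
    (RatFunc.X ^ 2 - RatFunc.C p * RatFunc.C q) ^ 2 ≠
      RatFunc.C c * (4 * RatFunc.X * (RatFunc.X - RatFunc.C p) *
        ((RatFunc.X : RatFunc k) - RatFunc.C q)) := by
  intro h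
  have h1 : algebraMap k[X] (RatFunc k) ((Polynomial.X ^ 2 - Polynomial.C (p * q)) ^ 2) =
      algebraMap k[X] (RatFunc k) (Polynomial.C c * (Polynomial.C 4 * Polynomial.X *
        (Polynomial.X - Polynomial.C p) * (Polynomial.X - Polynomial.C q))) := by
    simp only [map_mul, map_sub, map_pow, RatFunc.algebraMap_X, RatFunc.algebraMap_C]
    rw [h, map_ofNat]
  have h2 := RatFunc.algebraMap_injective k h1
  have h3 : ((Polynomial.X ^ 2 - Polynomial.C (p * q) : k[X]) ^ 2).natDegree = 4 := by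
    rw [natDegree_pow, natDegree_X_pow_sub_C]
  have h4 : (Polynomial.C c * (Polynomial.C 4 * Polynomial.X *
        (Polynomial.X - Polynomial.C p) * (Polynomial.X - Polynomial.C q)) : k[X]).natDegree ≤ 3 := by
    compute_degree
  rw [h2] at h3
  omega

theorem pSTA (h1 : StCON) (h2 : StLAM) : StSTA := by
  intro k _ _ l hl0 hl1
  have h4 : (4 : RatFunc k) ≠ 0 := by
    have h : (RatFunc.C (4 : k) : RatFunc k) = 4 := map_ofNat _ 4
    rw [← h]
    exact (map_ne_zero_iff _ (RatFunc.C (K := k)).injective).2 (by norm_num)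
  obtain ⟨x, hx⟩ : ∃ x : RatFunc k, x = (RatFunc.X ^ 2 - RatFunc.C (l 1 - l 0) *
      RatFunc.C (l 2 - l 0)) ^ 2 / (4 * RatFunc.X * (RatFunc.X - RatFunc.C (l 1 - l 0)) *
        (RatFunc.X - RatFunc.C (l 2 - l 0))) := ⟨_, rfl⟩
  obtain ⟨hA, hB, hC⟩ := dbl _ _ _ x h4 RatFunc.X_ne_zero (X_sub_ne _) (X_sub_ne _) hx
  have hD : 4 * RatFunc.X * (RatFunc.X - RatFunc.C (l 1 - l 0)) *
        ((RatFunc.X : RatFunc k) - RatFunc.C (l 2 - l 0)) ≠ 0 :=
    mul_ne_zero (mul_ne_zero (mul_ne_zero h4 RatFunc.X_ne_zero) (X_sub_ne _)) (X_sub_ne _)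
  have hnx : ∀ c : k, x ≠ RatFunc.C c := by
    intro c hc
    rw [hx, div_eq_iff hD] at hc
    exact nonconst _ _ _ hc
  have hs : ¬ Cst (RatFunc.C (l 0) + x) := by
    rintro ⟨a, ha⟩
    apply hnx (a - l 0)
    rw [map_sub, ← ha]
    ring
  have hne : ∀ c : k, RatFunc.C (l 0) + x - RatFunc.C c ≠ 0 := by
    intro c hc
    exact hs ⟨c, sub_eq_zero.1 hc⟩
  have hleg : ∀ i, leg (l i) (RatFunc.C (l 0) + x) ≠ 0 := by
    intro i
    unfold leg
    have e0 := hne 0
    have e1 := hne 1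
    rw [map_zero, sub_zero] at e0
    rw [map_one] at e1
    exact mul_ne_zero (mul_ne_zero e0 e1) (hne _)
  refine ⟨RatFunc.C (l 0) + x, hs, hleg, ?_, ?_⟩
  · have key : ∀ i j, IsSquare ((RatFunc.C (l 0) + x - RatFunc.C (l i)) *
        (RatFunc.C (l 0) + x - RatFunc.C (l j))) := by
      have e0 : RatFunc.C (l 0) + x - RatFunc.C (l 0) = x := by ring
      have e1 : RatFunc.C (l 0) + x - RatFunc.C (l 1) = x - RatFunc.C (l 1 - l 0) := by
        rw [map_sub]; ring
      have e2 : RatFunc.C (l 0) + x - RatFunc.C (l 2) = x - RatFunc.C (l 2 - l 0) := by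
        rw [map_sub]; ring
      intro i j
      fin_cases i <;> fin_cases j
      · exact ⟨_, rfl⟩
      · show IsSquare ((RatFunc.C (l 0) + x - RatFunc.C (l 0)) *
          (RatFunc.C (l 0) + x - RatFunc.C (l 1)))
        rw [e0, e1]; exact hA
      · show IsSquare ((RatFunc.C (l 0) + x - RatFunc.C (l 0)) *
          (RatFunc.C (l 0) + x - RatFunc.C (l 2)))
        rw [e0, e2]; exact hB
      · show IsSquare ((RatFunc.C (l 0) + x - RatFunc.C (l 1)) *
          (RatFunc.C (l 0) + x - RatFunc.C (l 0)))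
        rw [e0, e1, mul_comm]; exact hA
      · exact ⟨_, rfl⟩
      · show IsSquare ((RatFunc.C (l 0) + x - RatFunc.C (l 1)) *
          (RatFunc.C (l 0) + x - RatFunc.C (l 2)))
        rw [e1, e2]; exact hC
      · show IsSquare ((RatFunc.C (l 0) + x - RatFunc.C (l 2)) *
          (RatFunc.C (l 0) + x - RatFunc.C (l 0)))
        rw [e0, e2, mul_comm]; exact hB
      · show IsSquare ((RatFunc.C (l 0) + x - RatFunc.C (l 2)) *
          (RatFunc.C (l 0) + x - RatFunc.C (l 1)))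
        rw [e1, e2, mul_comm]; exact hC
      · exact ⟨_, rfl⟩
    intro i j
    obtain ⟨w, hw⟩ := key i j
    unfold leg
    refine ⟨(RatFunc.C (l 0) + x) * (RatFunc.C (l 0) + x - 1) * w, ?_⟩
    linear_combination ((RatFunc.C (l 0) + x) * (RatFunc.C (l 0) + x - 1)) ^ 2 * hw
  · intro i hsq
    obtain ⟨Λ, -, hΛC, hΛ, -⟩ := h2 k (AlgebraicClosure k)
    apply hs
    rw [← hΛ]
    have e1 : Λ (leg (l i) (RatFunc.C (l 0) + x)) =
        leg (algebraMap k (AlgebraicClosure k) (l i)) (Λ (RatFunc.C (l 0) + x)) := by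
      unfold leg
      rw [map_mul, map_mul, map_sub, map_sub, map_one, hΛC]
    have e2 : algebraMap k (AlgebraicClosure k) (l i) ≠ 0 :=
      (map_ne_zero_iff _ (algebraMap k (AlgebraicClosure k)).injective).2 (hl0 i)
    have e3 : algebraMap k (AlgebraicClosure k) (l i) ≠ 1 := by
      intro h
      exact hl1 i ((algebraMap k (AlgebraicClosure k)).injective (h.trans (map_one _).symm))
    have : CharZero (AlgebraicClosure k) :=
      charZero_of_injective_algebraMap (algebraMap k (AlgebraicClosure k)).injective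
    refine h1 (AlgebraicClosure k) _ _ e2 e3 ?_ ?_
    · rw [← e1]
      exact hsq.map Λ
    · rw [← e1]
      exact (map_ne_zero_iff Λ Λ.injective).2 (hleg i)

end Pool.Agent.Helper36.RK
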