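import Pool.Agent.Helper43.RK.StI

/-!
# Project RK, module IRU: rules
-/

set_option autoImplicit false

namespace Pool.Agent.Helper36.RK

open Pool.Agent.Helper43.RK

theorem conj_step {Λ : Type} [CommRing Λ] {G : Type} [Group G] {k : ℤ} (P : PP Λ G k) (m : ℤ)
    (x : Λ) : P.f ^ (-m) * P.p x * P.f ^ m = P.p (P.up m * x) := by
  induction m using Int.induction_on with
  | zero => simp [P.up_zero]
  | succ m ih =>
    have e1 : P.f ^ (-((m : ℤ) + 1)) = P.f⁻¹ * P.f ^ (-(m : ℤ)) := by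
      rw [show -((m : ℤ) + 1) = -1 + -(m : ℤ) by ring, zpow_add, zpow_neg_one]
    have e2 : P.f ^ ((m : ℤ) + 1) = P.f ^ (m : ℤ) * P.f := by rw [zpow_add_one]
    rw [e1, e2]
    calc P.f⁻¹ * P.f ^ (-(m : ℤ)) * P.p x * (P.f ^ (m : ℤ) * P.f)
        = P.f⁻¹ * (P.f ^ (-(m : ℤ)) * P.p x * P.f ^ (m : ℤ)) * P.f := by simp only [mul_assoc]
      _ = P.p (P.up ((m : ℤ) + 1) * x) := by
          rw [ih, P.pf, P.up_add, P.up_one]
          congr 1
          ring
  | pred m ih =>
    have e1 : P.f ^ (-(-(m : ℤ) - 1)) = P.f * P.f ^ (-(-(m : ℤ))) := by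
      rw [show -(-(m : ℤ) - 1) = 1 + -(-(m : ℤ)) by ring, zpow_add, zpow_one]
    have e2 : P.f ^ (-(m : ℤ) - 1) = P.f ^ (-(m : ℤ)) * P.f⁻¹ := by rw [zpow_sub_one]
    have e3 : P.p (P.up (-(m : ℤ)) * x) = P.f⁻¹ * P.p (P.up (-(m : ℤ) - 1) * x) * P.f := by
      rw [P.pf]
      congr 1
      have h1 : P.up (-(m : ℤ) - 1) * 2 = P.up (-(m : ℤ)) := by
        rw [← P.up_one, ← P.up_add]
        congr 1
        ring
      rw [← h1]
      ring
    rw [e1, e2]
    calc P.f * P.f ^ (-(-(m : ℤ))) * P.p x * (P.f ^ (-(m : ℤ)) * P.f⁻¹)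
        = P.f * (P.f ^ (-(-(m : ℤ))) * P.p x * P.f ^ (-(m : ℤ))) * P.f⁻¹ := by
          simp only [mul_assoc]
      _ = P.p (P.up (-(m : ℤ) - 1) * x) := by
          rw [ih, e3]
          group

theorem hIRU : StIRU := by
  intro Λ _ G _ k P
  have hfa : P.f * P.a = P.a * P.f ^ k := by
    rw [← P.af]
    group
  refine ⟨?_, ?_, ?_, ?_, conj_step P, ?_⟩
  · intro e x
    have h := conj_step P ((k - 1) * e) x
    have hZ : P.Z ^ e = P.f ^ (-((k - 1) * e)) := by
      rw [PP.Z, ← zpow_mul]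
      congr 1
      ring
    rw [hZ, ← h, mul_assoc, mul_assoc, ← zpow_add, add_neg_cancel, zpow_zero, mul_one]
  · intro e
    have h1 : P.a⁻¹ * P.Z ^ e * P.a = P.Z ^ (k * e) := by
      have h2 : ∀ j : ℤ, P.a⁻¹ * P.f ^ j * P.a = (P.a⁻¹ * P.f * P.a) ^ j := by
        intro j
        have h3 := (conj_zpow (i := j) (a := P.a⁻¹) (b := P.f)).symm
        rwa [inv_inv] at h3
      rw [PP.Z, ← zpow_mul, ← zpow_mul, h2, P.af, ← zpow_mul]
      congr 1
      ring
    rw [← h1]
    group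
  · rw [PP.Z]
    calc P.f⁻¹ * P.a * P.f = P.f⁻¹ * (P.a * P.f ^ k) * P.f ^ (1 - k) := by
          rw [mul_assoc, mul_assoc, mul_assoc, ← zpow_add]
          simp
      _ = P.a * P.f ^ (1 - k) := by
          rw [← hfa]
          group
  · intro x
    rw [← P.pf]
    constructor
    · intro h
      have h2 : P.p x = P.f * (P.f⁻¹ * P.p x * P.f) * P.f⁻¹ := by group
      rw [h2, h]
      group
    · intro h
      rw [h]
      group
  · intro m x
    induction m using Int.induction_on with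
    | zero => simp [P.p0]
    | succ m ih =>
      rw [zpow_add_one, ← ih, ← P.add]
      congr 1
      push_cast
      ring
    | pred m ih =>
      rw [zpow_sub_one, ← ih, ← P.pneg, ← P.add]
      congr 1
      push_cast
      ring

end Pool.Agent.Helper36.RK
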