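import Pool.Agent.Helper43.RK.St

set_option autoImplicit false

/-!
Module RAL of project RK (MP_b3ce06_al): additivity.
-/

namespace Pool.Agent.Helper36.RK

open Pool.Agent.Helper43.RK

variable {R : Type} [CommRing R] {G : Type} [Group G]

theorem conj_mul {n x y : G} (h : n * n = 1) : n * (x * y) * n = (n * x * n) * (n * y * n) := by
  calc n * (x * y) * n = n * x * 1 * y * n := by group
    _ = n * x * (n * n) * y * n := by rw [h]
    _ = _ := by group

theorem conj_conj {n x y : G} (h : n * n = 1) (hx : n * x * n = y) : n * y * n = x := by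
  rw [← hx]
  calc n * (n * x * n) * n = (n * n) * x * (n * n) := by group
    _ = x := by rw [h]; group

theorem gd_zero (D : Dt R G) (hn : D.n * D.n = 1) : D.Gd 0 := by
  have ht : D.tau 0 = 1 := by
    unfold Dt.tau
    rw [D.a0, mul_one, hn]
  refine ⟨?_, ?_, ?_, ?_⟩
  · rw [zero_mul, D.a0, D.b0, mul_one, hn]
  · intro r
    rw [ht, one_mul, mul_one, zero_mul, add_zero]
  · intro r
    rw [ht, one_mul, mul_one, zero_mul, add_zero]
  · rw [ht, one_mul, mul_one]

theorem tr_fixed (D : Dt R G) {m : R} (hm : D.bar m = m) (l r : R) :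
    (r + m * (r + D.bar r)) + l * ((r + m * (r + D.bar r)) + D.bar (r + m * (r + D.bar r))) =
      r + (l + m) * (r + D.bar r) := by
  rw [map_add, map_mul, map_add, D.barb, hm]
  have h := D.two (l * (m * (r + D.bar r)))
  linear_combination h

theorem gd_add (D : Dt R G) (hn : D.n * D.n = 1) {l m : R} (hm : D.bar m = m)
    (h1 : D.tau (l + m) = D.tau l * D.tau m) (h2 : D.tau (l + m) = D.tau m * D.tau l)
    (gl : D.Gd l) (gm : D.Gd m) : D.Gd (l + m) := by
  refine ⟨?_, ?_, ?_, ?_⟩
  · rw [add_mul, D.a_add, conj_mul hn, gl.ex, gm.ex, D.b_add]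
  · intro r
    calc D.tau (l + m) * D.a r * D.tau (l + m) = (D.tau l * D.tau m) * D.a r * (D.tau m * D.tau l) := by
          rw [← h1, ← h2]
      _ = D.tau l * (D.tau m * D.a r * D.tau m) * D.tau l := by group
      _ = _ := by rw [gm.ta, gl.ta, tr_fixed D hm]
  · intro r
    calc D.tau (l + m) * D.b r * D.tau (l + m) = (D.tau l * D.tau m) * D.b r * (D.tau m * D.tau l) := by
          rw [← h1, ← h2]
      _ = D.tau l * (D.tau m * D.b r * D.tau m) * D.tau l := by group
      _ = _ := by rw [gm.tb, gl.tb, tr_fixed D hm]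
  · rw [h1, mul_assoc, gm.tQ, ← mul_assoc, gl.tQ, mul_assoc]

theorem hRAL : StRAL := by
  intro hS1 hN hT hI1 hD hIS R _ _ G _ D hz hd
  have hn := (hN R G D hz).1
  obtain ⟨g1, ge⟩ := hI1 hS1 hN hT hD R G D hz hd
  have hpow : ∀ j : ℕ, D.Gd ((D.e : R) ^ j) := by
    intro j
    induction j with
    | zero => rw [pow_zero]; exact g1
    | succ j ih => exact hIS hS1 hN hT R G D hz ge j ih
  have hbp : ∀ j : ℕ, D.bar ((D.e : R) ^ j) = (D.e : R) ^ j := by
    intro j
    rw [map_pow, D.bar_e]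
  have hadd : ∀ l m : R, D.bar l = l → D.tau (l + m) = D.tau l * D.tau m := fun l m hl =>
    (hT hN R G D hz l hl).2.2.2.2.1 m
  let T : AddSubgroup R :=
    { carrier := {l | D.bar l = l ∧ D.Gd l}
      zero_mem' := ⟨map_zero _, gd_zero D hn⟩
      add_mem' := by
        rintro l m ⟨hl, gl⟩ ⟨hm, gm⟩
        refine ⟨by rw [map_add, hl, hm], ?_⟩
        refine gd_add D hn hm (hadd l m hl) ?_ gl gm
        rw [add_comm, hadd m l hm]
      neg_mem' := by
        rintro l ⟨hl, gl⟩
        have h : -l = l := neg_eq_of_add_eq_zero_left (D.two l)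
        rw [h]
        exact ⟨hl, gl⟩ }
  have hT' : ∀ l, D.bar l = l → D.Gd l := fun l hl =>
    ((hS1 R G D).2.1 T (fun i => ⟨hbp i, hpow i⟩) l hl).2
  refine ⟨hT', ?_⟩
  intro l m hl hm
  have gl := hT' l hl
  have gm := hT' m hm
  have h1 : D.n * D.b l * D.n = D.a (l * (D.y : R)) := conj_conj hn gl.ex
  have h2 : D.n * (D.a m * D.b l * D.a m * D.b l) * D.n = D.a (m * l) := by
    rw [conj_mul hn, conj_mul hn, conj_mul hn, h1]
    have h3 : D.n * D.a m * D.n = D.tau m := rfl
    rw [h3, gm.ta, ← D.a_add]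
    congr 1
    rw [map_mul, hl, D.bary]
    have h4 := D.two (l * (D.y : R))
    have h5 := D.hy
    linear_combination h4 + m * l * h5
  have h3 := conj_conj hn h2
  rw [← h3, mul_comm m l]
  rfl

end Pool.Agent.Helper36.RK
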